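import Mathlib
import Pool.Agent.R246.SK.Defs
import Pool.Agent.R246.SK.Asm
import Pool.Agent.R650.SK.FT1
import Pool.Agent.R209.SK.FT2
import Pool.Agent.R999.SK.FT3
import Pool.Agent.H152R2.SK.LAM
import Pool.Agent.R938.SK.TT
import Pool.Agent.R962.SK.KS
import Pool.Agent.R886.SK.EIG
import Pool.Agent.R886.SK.CF
import Pool.Agent.R371.SK.PSI2
import Pool.Agent.R874.SK.POL
import Pool.Agent.R608.SK.ABS
import Pool.Agent.R262.SK.WEYL
import Pool.Agent.R567.SK.DS
import Pool.Agent.R657.SK.LIFT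
import Pool.Agent.R64.SK.COV
import Pool.Agent.R30.SK.TRANS
import Pool.Agent.R451.SK.FIN
import Pool.Agent.R569.SK.Q
import Pool.Agent.R374.SK.BD
import Pool.Agent.R874.SK.PSI1
import Pool.Agent.R567.SK.SUM
import Pool.Agent.R335.SK.MIN

/-!
# MP_3f9991_gt, Q1: the answer is YES

Compactness of Steklov isospectral families on the disk.  The constant depends on the spectrum only
and no lower bound for the functions and no passage to a subsequence is needed.
The definitions are in `Pool/Agent/R246/SK/Defs.lean`: `SP`, `PP` (smooth periodic functions),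
`ee`, `fc`, `ac` (Fourier coefficients), `Lam` (`Λ_e`), `ip`, `ON`, `CP`, `HasSpec` (the Steklov
spectrum), `ConfEq` (conformal equivalence), `hn` (`∑ hn b n = ‖b‖²_{H^{3/2}}`).
-/

namespace Pool.Agent.Results.MP_3f9991_gt.SteklovCompactness

open Pool.Agent.R246.SK

/-- For every sequence `lam` there is a constant `C` such that every positive `a ∈ C^∞(𝕊)` with
`Sp(a Λ_e) = lam` is conformally equivalent to some positive `b ∈ C^∞(𝕊)` with
`‖b‖²_{H^{3/2}} = ∑ (1 + |n|³) |b̂_n|² ≤ C`. -/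
theorem result (lam : ℕ → ℝ) : ∃ C : ℝ, ∀ a : ℝ → ℝ, PP a → HasSpec a lam →
    ∃ b : ℝ → ℝ, PP b ∧ ConfEq a b ∧ Summable (hn b) ∧ ∑' n, hn b n ≤ C := by
  have h1 : S_FT1 := Pool.Agent.R650.SK.s_ft1
  have h2 : S_FT2 := Pool.Agent.R209.SK.s_ft2
  have h3 : S_FT3 := Pool.Agent.R999.SK.s_ft3 h1
  have hL : S_LAM := Pool.Agent.H152R2.SK.s_lam h1 h2 h3
  have hT : S_TT := Pool.Agent.R938.SK.s_tt h1 h3 hL
  have hK : S_KS := Pool.Agent.R962.SK.s_ks h1
  have hP1 : S_PSI1 := Pool.Agent.R874.SK.Psi1.s_psi1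
  have hP2 : S_PSI2 := Pool.Agent.R371.SK.s_psi2
  have hC : S_COV := Pool.Agent.R64.SK.s_cov h1 h2
  have hSU : S_SUM := Pool.Agent.R567.SK.s_sum h1 hK
  have hMI : S_MIN := Pool.Agent.R335.SK.s_min
  exact main_of h3 hL hT hK hSU (Pool.Agent.R886.SK.s_eig hL) hP1 hP2
    Pool.Agent.R874.SK.Pol.s_pol Pool.Agent.R608.SK.s_abs s_weyl Pool.Agent.R567.SK.s_ds
    (Pool.Agent.R569.SKQ.s_qa hL) (Pool.Agent.R569.SKQ.s_qb h1 hP1 hP2)
    (Pool.Agent.R374.SK.s_bd hT hK hL) Pool.Agent.R886.SK.s_cf s_lift hMI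
    (Pool.Agent.R30.SK.s_trans hC) (Pool.Agent.R451.SK.s_fin h1) lam

end Pool.Agent.Results.MP_3f9991_gt.SteklovCompactness
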